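import Mathlib

/-!
# MP_27056a_lc: Borel `2^d`-polychromatic colorings versus coordinate 2-colorings

The answer to the question is yes, for each `d ≥ 2`: there is a free Borel action of `ℤ^d` such that
each coordinate subaction has a Borel proper 2-coloring, while the grid graph has no
Borel `2^d`-polychromatic coloring.

The action: `X = ℤ/2 × ℝ × ℤ^d`, and `γ ∈ ℤ^d` maps `(ε, y, z)` to
`(ε + ∑ γ_i, y + γ_0 + √2 γ_1, z + (0, 0, γ_2, …, γ_{d-1}))`. The first coordinate is a proper
2-coloring of all coordinate subactions.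

In a `2^d`-polychromatic coloring of `ℤ^d` the points `p` and `p + m e_0 + n e_1` have different
colors if `m` and `n` are odd (`odd_odd`; the sets of a color project to tilings of a plane by
squares with sides of length `2`, whose rows or columns are aligned). On the other hand, the sets of
those `y ∈ ℝ` such that `(0, y, 0)` has the color `k` cover the line, so that one of them
has positive measure, and by the theorem of Steinhaus its differences contain some number
`m + √2 n` with odd `m` and `n`.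
-/

namespace Pool.Agent.Results.MP_27056a_lc.NoCubes

open MeasureTheory

/-- A free Borel action of `ℤ^d` on `X`. -/
structure IsFreeBorelAction (d : ℕ) (X : Type) [MeasurableSpace X] [AddAction (Fin d → ℤ) X] :
    Prop where
  measurable : ∀ g : Fin d → ℤ, Measurable fun x : X => g +ᵥ x
  free : ∀ (g : Fin d → ℤ) (x : X), g +ᵥ x = x → g = 0

/-- `c` is a Borel `k`-polychromatic coloring: every unit cube `{0,1}^d · x` contains points of all
`k` colors. -/
def IsPolychromatic {d : ℕ} {X : Type} [MeasurableSpace X] [AddAction (Fin d → ℤ) X] (k : ℕ)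
    (c : X → Fin k) : Prop :=
  Measurable c ∧ ∀ (x : X) (j : Fin k), ∃ v : Fin d → ℤ, (∀ i, v i = 0 ∨ v i = 1) ∧ c (v +ᵥ x) = j

/-- `c` is a Borel proper 2-coloring of the `i`-th coordinate subaction. -/
def IsProper {d : ℕ} {X : Type} [MeasurableSpace X] [AddAction (Fin d → ℤ) X] (i : Fin d)
    (c : X → Fin 2) : Prop :=
  Measurable c ∧ ∀ x : X, c ((Pi.single i 1 : Fin d → ℤ) +ᵥ x) ≠ c x

/-! ### Tilings of the plane by squares with sides of length 2 -/

theorem plane (g : ℤ → ℤ → ℤ) (h01 : ∀ x y, g x y = 0 ∨ g x y = 1)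
    (h : ∀ x y, g x y + g (x + 1) y + g x (y + 1) + g (x + 1) (y + 1) = 1)
    {x y m n : ℤ} (hm : Odd m) (hn : Odd n) (h1 : g x y = 1) (h2 : g (x + m) (y + n) = 1) :
    False := by
  -- sums over dominoes
  have hh : ∀ (k : ℤ) (x y : ℤ), g (x + 2 * k) y + g (x + 2 * k) (y + 1) = g x y + g x (y + 1) := by
    intro k
    induction k using Int.induction_on with
    | zero => intro x y; simp
    | succ k ih =>
      intro x y
      have e1 := h (x + 2 * k) y
      have e2 := h (x + 2 * k + 1) y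
      have e3 := ih x y
      have e4 : x + 2 * ((k : ℤ) + 1) = x + 2 * k + 1 + 1 := by ring
      rw [e4]
      omega
    | pred k ih =>
      intro x y
      have e1 := h (x + 2 * (-(k : ℤ) - 1)) y
      have e2 := h (x + 2 * (-(k : ℤ) - 1) + 1) y
      have e3 := ih x y
      have e4 : x + 2 * (-(k : ℤ)) = x + 2 * (-(k : ℤ) - 1) + 1 + 1 := by ring
      rw [e4] at e3
      omega
  have hv : ∀ (k : ℤ) (x y : ℤ), g x (y + 2 * k) + g (x + 1) (y + 2 * k) = g x y + g (x + 1) y := by
    intro k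
    induction k using Int.induction_on with
    | zero => intro x y; simp
    | succ k ih =>
      intro x y
      have e1 := h x (y + 2 * k)
      have e2 := h x (y + 2 * k + 1)
      have e3 := ih x y
      have e4 : y + 2 * ((k : ℤ) + 1) = y + 2 * k + 1 + 1 := by ring
      rw [e4]
      omega
    | pred k ih =>
      intro x y
      have e1 := h x (y + 2 * (-(k : ℤ) - 1))
      have e2 := h x (y + 2 * (-(k : ℤ) - 1) + 1)
      have e3 := ih x y
      have e4 : y + 2 * (-(k : ℤ)) = y + 2 * (-(k : ℤ) - 1) + 1 + 1 := by ring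
      rw [e4] at e3
      omega
  obtain ⟨k, rfl⟩ := hm
  obtain ⟨l, rfl⟩ := hn
  by_cases hc : ∃ t : ℤ, g 0 t + g 0 (t + 1) ≠ g 0 (t + 1) + g 0 (t + 1 + 1)
  · obtain ⟨t, ht⟩ := hc
    -- the row `t + 1` is empty
    have hrow : ∀ s : ℤ, g s (t + 1) = 0 := by
      have key : ∀ s : ℤ, g s t + g s (t + 1) ≠ g s (t + 1) + g s (t + 1 + 1) := by
        intro s
        obtain ⟨r, hr | hr⟩ := Int.even_or_odd' s
        · have e1 := hh r 0 t
          have e2 := hh r 0 (t + 1)
          rw [zero_add] at e1 e2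
          rw [hr]; omega
        · have e1 := hh r 0 t
          have e2 := hh r 0 (t + 1)
          have e3 := h (2 * r) t
          have e4 := h (2 * r) (t + 1)
          rw [zero_add] at e1 e2
          rw [hr]; omega
      intro s
      have e0 := key s
      have e1 := key (s + 1)
      have e2 := h s t
      have e3 := h s (t + 1)
      have f1 := h01 s t
      have f2 := h01 s (t + 1)
      have f3 := h01 s (t + 1 + 1)
      have f4 := h01 (s + 1) t
      have f5 := h01 (s + 1) (t + 1)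
      have f6 := h01 (s + 1) (t + 1 + 1)
      omega
    have hrow' : ∀ (r s : ℤ), g s (t + 1 + 2 * r) = 0 := by
      intro r s
      have e1 := hv r s (t + 1)
      rw [hrow s, hrow (s + 1)] at e1
      have f1 := h01 s (t + 1 + 2 * r)
      have f2 := h01 (s + 1) (t + 1 + 2 * r)
      omega
    obtain ⟨r, hr | hr⟩ := Int.even_or_odd' (y - (t + 1))
    · have e1 := hrow' r x
      rw [← hr] at e1
      have e2 : t + 1 + (y - (t + 1)) = y := by ring
      rw [e2] at e1
      omega
    · have e1 := hrow' (r + l + 1) (x + (2 * k + 1))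
      have e2 : t + 1 + 2 * (r + l + 1) = y + (2 * l + 1) := by omega
      rw [e2] at e1
      omega
  · push Not at hc
    have hconst : ∀ t : ℤ, g 0 t + g 0 (t + 1) = g 0 0 + g 0 (0 + 1) := by
      intro t
      induction t using Int.induction_on with
      | zero => rfl
      | succ i ih => rw [← hc i]; exact ih
      | pred i ih =>
        have e1 := hc (-(i : ℤ) - 1)
        have e2 : -(i : ℤ) - 1 + 1 = -(i : ℤ) := by ring
        rw [e2] at e1 ⊢
        rw [e1]; exact ih
    have hconst' : ∀ s t t' : ℤ, g s t + g s (t + 1) = g s t' + g s (t' + 1) := by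
      intro s t t'
      have c1 := hconst t
      have c2 := hconst t'
      obtain ⟨r, hr | hr⟩ := Int.even_or_odd' s
      · have e1 := hh r 0 t
        have e2 := hh r 0 t'
        rw [zero_add] at e1 e2
        rw [hr]; omega
      · have e1 := hh r 0 t
        have e2 := hh r 0 t'
        have e3 := h (2 * r) t
        have e4 := h (2 * r) t'
        rw [zero_add] at e1 e2
        rw [hr]; omega
    have e1 := hconst' x y (y + (2 * l + 1))
    have e2 := hh k (x + 1) (y + (2 * l + 1))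
    have e3 := h x (y + (2 * l + 1))
    have e4 : x + 1 + 2 * k = x + (2 * k + 1) := by ring
    rw [e4] at e2
    have f1 := h01 x (y + 1)
    have f2 := h01 (x + (2 * k + 1)) (y + (2 * l + 1) + 1)
    omega

/-! ### Polychromatic colorings -/

section

variable {d : ℕ} {X : Type} [MeasurableSpace X] [AddAction (Fin (d + 2) → ℤ) X]

/-- The cube `{0,1}^(d+2)`. -/
def cube (d : ℕ) : Finset (Fin (d + 2) → ℤ) := Fintype.piFinset fun _ => {0, 1}

theorem mem_cube {v : Fin (d + 2) → ℤ} : v ∈ cube d ↔ ∀ i, v i = 0 ∨ v i = 1 := by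
  simp [cube, Fintype.mem_piFinset]

theorem card_cube : (cube d).card = 2 ^ (d + 2) := by
  simp [cube, Fintype.card_piFinset]

theorem inj_cube {c : X → Fin (2 ^ (d + 2))} (hc : IsPolychromatic (d := d + 2) (2 ^ (d + 2)) c)
    (x : X) {v w : Fin (d + 2) → ℤ} (hv : v ∈ cube d) (hw : w ∈ cube d)
    (h : c (v +ᵥ x) = c (w +ᵥ x)) : v = w := by
  have h1 : (cube d).image (fun v => c (v +ᵥ x)) = Finset.univ := by
    apply Finset.eq_univ_of_forall
    intro j
    obtain ⟨v, hv, rfl⟩ := hc.2 x j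
    exact Finset.mem_image_of_mem _ (mem_cube.mpr hv)
  have h2 : Set.InjOn (fun v => c (v +ᵥ x)) (cube d : Set (Fin (d + 2) → ℤ)) := by
    apply Finset.injOn_of_card_image_eq
    rw [h1, card_cube]
    simp
  exact h2 hv hw h

/-- The vector `m e_0 + n e_1`. -/
def vec (d : ℕ) (m n : ℤ) : Fin (d + 2) → ℤ := Fin.cons m (Fin.cons n fun _ => 0)

theorem vec_add (m n m' n' : ℤ) : vec d m n + vec d m' n' = vec d (m + m') (n + n') := by
  funext i
  refine Fin.cases ?_ (fun i => Fin.cases ?_ (fun i => ?_) i) i <;> simp [vec]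

open Classical in
/-- The indicator function of the projection of a color to a plane. -/
noncomputable def proj (c : X → Fin (2 ^ (d + 2))) (x : X) (j : Fin (2 ^ (d + 2))) (s t : ℤ) : ℤ :=
  if ∃ v ∈ cube d, v 0 = 0 ∧ v 1 = 0 ∧ c ((v + vec d s t) +ᵥ x) = j then 1 else 0

omit [MeasurableSpace X] in
theorem proj_eq_one_iff (c : X → Fin (2 ^ (d + 2))) (x : X) (j : Fin (2 ^ (d + 2))) (s t : ℤ) :
    proj c x j s t = 1 ↔ ∃ v ∈ cube d, v 0 = 0 ∧ v 1 = 0 ∧ c ((v + vec d s t) +ᵥ x) = j := by
  unfold proj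
  split_ifs with h
  · simpa using h
  · simpa using h

omit [MeasurableSpace X] in
theorem proj_01 (c : X → Fin (2 ^ (d + 2))) (x : X) (j : Fin (2 ^ (d + 2))) (s t : ℤ) :
    proj c x j s t = 0 ∨ proj c x j s t = 1 := by
  unfold proj
  split_ifs <;> simp

theorem cube_add_vec {v : Fin (d + 2) → ℤ} (hv : v ∈ cube d) (h0 : v 0 = 0) (h1 : v 1 = 0)
    {s t : ℤ} (hs : s = 0 ∨ s = 1) (ht : t = 0 ∨ t = 1) : v + vec d s t ∈ cube d := by
  rw [mem_cube] at hv ⊢
  intro i
  refine Fin.cases ?_ (fun i => Fin.cases ?_ (fun i => ?_) i) i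
  · simpa [vec, h0] using hs
  · have : v (Fin.succ 0) = 0 := h1
    simpa [vec, this, h1] using ht
  · have := hv i.succ.succ
    simpa [vec] using this

theorem proj_sum {c : X → Fin (2 ^ (d + 2))} (hc : IsPolychromatic (d := d + 2) (2 ^ (d + 2)) c)
    (x : X) (j : Fin (2 ^ (d + 2))) (s t : ℤ) :
    proj c x j s t + proj c x j (s + 1) t + proj c x j s (t + 1) + proj c x j (s + 1) (t + 1)
      = 1 := by
  -- all the four numbers refer to the cube at `vec s t +ᵥ x`
  have key : ∀ a b : ℤ, proj c x j (s + a) (t + b) = 1 ↔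
      ∃ v ∈ cube d, v 0 = 0 ∧ v 1 = 0 ∧ c ((v + vec d a b) +ᵥ (vec d s t +ᵥ x)) = j := by
    intro a b
    rw [proj_eq_one_iff]
    have : ∀ v : Fin (d + 2) → ℤ, (v + vec d (s + a) (t + b)) +ᵥ x
        = (v + vec d a b) +ᵥ (vec d s t +ᵥ x) := by
      intro v
      rw [← vec_add, ← add_vadd]
      congr 1
      abel
    simp_rw [this]
  obtain ⟨v, hv, hvj⟩ := hc.2 (vec d s t +ᵥ x) j
  have hvc : v ∈ cube d := mem_cube.mpr hv
  -- the part of `v` in the other directions
  obtain ⟨u, hu, hu0, hu1, huv⟩ : ∃ u ∈ cube d, u 0 = 0 ∧ u 1 = 0 ∧ v = u + vec d (v 0) (v 1) := by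
    refine ⟨v - vec d (v 0) (v 1), ?_, ?_, ?_, ?_⟩
    · rw [mem_cube]
      intro i
      refine Fin.cases ?_ (fun i => Fin.cases ?_ (fun i => ?_) i) i
      · simp [vec]
      · left
        simp [vec]
      · have := hv i.succ.succ
        simpa [vec] using this
    · simp [vec]
    · show v (Fin.succ 0) - vec d (v 0) (v 1) (Fin.succ 0) = 0
      simp [vec]
    · abel
  have huniq : ∀ a b : ℤ, (a = 0 ∨ a = 1) → (b = 0 ∨ b = 1) →
      proj c x j (s + a) (t + b) = 1 → a = v 0 ∧ b = v 1 := by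
    intro a b ha hb hab
    obtain ⟨u', hu', hu'0, hu'1, hj⟩ := (key a b).mp hab
    have h1 := inj_cube hc (vec d s t +ᵥ x) (cube_add_vec hu' hu'0 hu'1 ha hb) hvc
      (by rw [hj, hvj])
    constructor
    · have := congrFun h1 0
      simpa [vec, hu'0] using this
    · have := congrFun h1 (Fin.succ 0)
      have h3 : u' (Fin.succ 0) = 0 := hu'1
      simpa [vec, h3, hu'1] using this
  have hex : proj c x j (s + v 0) (t + v 1) = 1 := by
    rw [key]
    exact ⟨u, hu, hu0, hu1, by rw [← huv]; exact hvj⟩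
  have p1 := proj_01 c x j s t
  have p2 := proj_01 c x j (s + 1) t
  have p3 := proj_01 c x j s (t + 1)
  have p4 := proj_01 c x j (s + 1) (t + 1)
  have q1 := huniq 0 0 (Or.inl rfl) (Or.inl rfl)
  have q2 := huniq 1 0 (Or.inr rfl) (Or.inl rfl)
  have q3 := huniq 0 1 (Or.inl rfl) (Or.inr rfl)
  have q4 := huniq 1 1 (Or.inr rfl) (Or.inr rfl)
  simp only [add_zero] at q1 q2 q3
  rcases hv 0 with h0 | h0 <;> rcases hv 1 with h1 | h1 <;>
    rw [h0, h1] at q1 q2 q3 q4 hex <;> (try simp only [add_zero] at hex) <;> omega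

/-- Points which differ by `m e_0 + n e_1` with odd `m` and `n` have different colors. -/
theorem odd_odd {c : X → Fin (2 ^ (d + 2))} (hc : IsPolychromatic (d := d + 2) (2 ^ (d + 2)) c)
    (x : X) {m n : ℤ} (hm : Odd m) (hn : Odd n) : c (vec d m n +ᵥ x) ≠ c x := by
  intro h
  have h1 : proj c x (c x) 0 0 = 1 := by
    rw [proj_eq_one_iff]
    refine ⟨0, mem_cube.mpr fun i => Or.inl rfl, rfl, rfl, ?_⟩
    have : (0 + vec d 0 0 : Fin (d + 2) → ℤ) = 0 := by
      funext i
      refine Fin.cases ?_ (fun i => Fin.cases ?_ (fun i => ?_) i) i <;> simp [vec]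
    rw [this, zero_vadd]
  have h2 : proj c x (c x) (0 + m) (0 + n) = 1 := by
    rw [proj_eq_one_iff]
    refine ⟨0, mem_cube.mpr fun i => Or.inl rfl, rfl, rfl, ?_⟩
    rw [zero_add, zero_add, zero_add]
    exact h
  exact plane _ (proj_01 c x (c x)) (proj_sum hc x (c x)) hm hn h1 h2

end

/-! ### The action -/

/-- The underlying space `ℤ/2 × ℝ × ℤ^(d+2)` of the action. -/
abbrev Sp (d : ℕ) : Type := ZMod 2 × ℝ × (Fin (d + 2) → ℤ)

/-- The translation by which `γ` acts. -/
noncomputable def tr (d : ℕ) : (Fin (d + 2) → ℤ) →+ Sp d where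
  toFun g := (((∑ i, g i : ℤ) : ZMod 2), (g 0 : ℝ) + Real.sqrt 2 * (g 1 : ℝ),
    fun i => if i = 0 ∨ i = 1 then 0 else g i)
  map_zero' := by
    ext <;> simp
  map_add' g h := by
    ext i
    · simp [Finset.sum_add_distrib]
    · simp; ring
    · by_cases hi : i = 0 ∨ i = 1 <;> simp [hi]

noncomputable instance (d : ℕ) : AddAction (Fin (d + 2) → ℤ) (Sp d) where
  vadd g x := tr d g + x
  zero_vadd x := by
    show tr d 0 + x = x
    rw [map_zero, zero_add]
  add_vadd g h x := by
    show tr d (g + h) + x = tr d g + (tr d h + x)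
    rw [map_add, add_assoc]

theorem vadd_def (d : ℕ) (g : Fin (d + 2) → ℤ) (x : Sp d) : g +ᵥ x = tr d g + x := rfl

theorem tr_inj (d : ℕ) (g : Fin (d + 2) → ℤ) (h : tr d g = 0) : g = 0 := by
  have h2 : (g 0 : ℝ) + Real.sqrt 2 * (g 1 : ℝ) = 0 := congrArg (fun p => p.2.1) h
  have h3 : (fun i => if i = 0 ∨ i = 1 then 0 else g i) = (0 : Fin (d + 2) → ℤ) :=
    congrArg (fun p => p.2.2) h
  have h1 : g 1 = 0 := by
    by_contra hne
    apply irrational_sqrt_two
    refine ⟨-(g 0 : ℚ) / (g 1 : ℚ), ?_⟩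
    have hne' : (g 1 : ℝ) ≠ 0 := by exact_mod_cast hne
    push_cast
    field_simp
    linarith
  have h0 : g 0 = 0 := by
    rw [h1] at h2
    simpa using h2
  funext i
  by_cases hi : i = 0 ∨ i = 1
  · rcases hi with rfl | rfl
    · exact h0
    · exact h1
  · have := congrFun h3 i
    simpa [hi] using this

theorem isFreeBorelAction (d : ℕ) : IsFreeBorelAction (d + 2) (Sp d) where
  measurable g := by
    show Measurable fun x : Sp d => tr d g + x
    exact measurable_const_add _
  free g x h := by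
    rw [vadd_def] at h
    exact tr_inj d g (by simpa using h)

/-- The first coordinate as a 2-coloring. -/
def parity (d : ℕ) (x : Sp d) : Fin 2 := x.1

theorem isProper_parity (d : ℕ) (i : Fin (d + 2)) : IsProper i (parity d) := by
  refine ⟨measurable_fst, fun x h => ?_⟩
  have h1 : ((∑ j, (Pi.single i 1 : Fin (d + 2) → ℤ) j : ℤ) : ZMod 2) + x.1 = x.1 := h
  rw [Finset.sum_pi_single'] at h1
  simp at h1

/-! ### Small numbers `m + √2 n` with odd `m`, `n` -/

theorem odd_power (k : ℕ) : ∃ m n : ℤ, Odd m ∧ Odd n ∧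
    (m : ℝ) + Real.sqrt 2 * n = (Real.sqrt 2 - 1) ^ (2 * k + 1) := by
  induction k with
  | zero => exact ⟨-1, 1, by decide, by decide, by push_cast; ring⟩
  | succ k ih =>
    obtain ⟨m, n, ⟨m', hm⟩, ⟨n', hn⟩, h⟩ := ih
    refine ⟨3 * m - 4 * n, 3 * n - 2 * m, ⟨3 * m' - 2 * n + 1, by rw [hm]; ring⟩,
      ⟨3 * n' - m + 1, by rw [hn]; ring⟩, ?_⟩
    have h2 : Real.sqrt 2 ^ 2 = 2 := Real.sq_sqrt (by norm_num)
    have h3 : (Real.sqrt 2 - 1) ^ (2 * (k + 1) + 1)
        = (Real.sqrt 2 - 1) ^ (2 * k + 1) * (3 - 2 * Real.sqrt 2) := by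
      have : (3 - 2 * Real.sqrt 2) = (Real.sqrt 2 - 1) ^ 2 := by
        ring_nf; rw [h2]; ring
      have h4 : 2 * (k + 1) + 1 = 2 * k + 1 + 2 := by ring
      rw [this, h4, pow_add]
    rw [h3, ← h]
    push_cast
    ring_nf
    rw [h2]
    ring

theorem exists_small {U : Set ℝ} (hU : U ∈ nhds (0 : ℝ)) :
    ∃ m n : ℤ, Odd m ∧ Odd n ∧ (m : ℝ) + Real.sqrt 2 * n ∈ U := by
  have h1 : Filter.Tendsto (fun k : ℕ => (Real.sqrt 2 - 1) ^ (2 * k + 1)) Filter.atTop
      (nhds 0) := by
    have h2 : Filter.Tendsto (fun k : ℕ => (Real.sqrt 2 - 1) ^ k) Filter.atTop (nhds 0) := by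
      apply tendsto_pow_atTop_nhds_zero_of_lt_one
      · have : (1 : ℝ) ≤ Real.sqrt 2 := by
          rw [Real.one_le_sqrt]; norm_num
        linarith
      · have : Real.sqrt 2 < 2 := by
          rw [Real.sqrt_lt' (by norm_num)]; norm_num
        linarith
    exact h2.comp (Filter.tendsto_atTop_mono (fun k => by show k ≤ 2 * k + 1; omega) Filter.tendsto_id)
  obtain ⟨k, hk⟩ := (h1.eventually hU).exists
  obtain ⟨m, n, hm, hn, h⟩ := odd_power k
  exact ⟨m, n, hm, hn, by rw [h]; exact hk⟩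

theorem not_polychromatic (d : ℕ) (c : Sp d → Fin (2 ^ (d + 2))) :
    ¬ IsPolychromatic (d := d + 2) (2 ^ (d + 2)) c := by
  intro hc
  let E : Fin (2 ^ (d + 2)) → Set ℝ := fun j => {y | c ((0, y, 0) : Sp d) = j}
  have hE : ∀ j, MeasurableSet (E j) := fun j =>
    (hc.1.comp (by fun_prop : Measurable fun y : ℝ => ((0, y, 0) : Sp d)))
      (measurableSet_singleton j)
  have hcover : (⋃ j, E j) = Set.univ := by
    ext y; simp [E]
  obtain ⟨j, hj⟩ : ∃ j, 0 < volume (E j) := by
    apply exists_measure_pos_of_not_measure_iUnion_null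
    rw [hcover]
    simp
  have hst := Measure.sub_mem_nhds_zero_of_addHaar_pos volume (E j) (hE j) hj
  obtain ⟨m, n, hm, hn, hmn⟩ := exists_small hst
  obtain ⟨y, hy, y', hy', hyy⟩ := Set.mem_sub.mp hmn
  apply odd_odd hc ((0, y', 0) : Sp d) hm hn
  have h1 : vec d m n +ᵥ ((0, y', 0) : Sp d) = (0, y, 0) := by
    rw [vadd_def]
    have e0 : vec d m n 0 = m := rfl
    have e1 : vec d m n 1 = n := rfl
    have e2 : ∑ i, vec d m n i = m + n := by
      rw [Fin.sum_univ_succ, Fin.sum_univ_succ]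
      simp [vec]
    ext i
    · show ((∑ i, vec d m n i : ℤ) : ZMod 2) + 0 = 0
      rw [e2, add_zero]
      have : Even (m + n) := hm.add_odd hn
      exact (ZMod.intCast_zmod_eq_zero_iff_dvd _ 2).mpr this.two_dvd
    · show ((vec d m n 0 : ℤ) : ℝ) + Real.sqrt 2 * ((vec d m n 1 : ℤ) : ℝ) + y' = y
      rw [e0, e1]
      linarith
    · show (if i = 0 ∨ i = 1 then 0 else vec d m n i) + 0 = 0
      refine Fin.cases ?_ (fun i => Fin.cases ?_ (fun i => ?_) i) i <;> simp [vec]
  rw [h1]
  exact hy.trans hy'.symm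

/-- **Borel `2^d`-polychromatic colorings versus coordinate 2-colorings.** For every `d ≥ 2` there is
a free Borel action of `ℤ^d` on a standard Borel space, such that each coordinate subaction has a
Borel proper 2-coloring, but the grid graph has no Borel `2^d`-polychromatic coloring. -/
theorem result (d : ℕ) (hd : 2 ≤ d) : ∃ (X : Type) (_ : MeasurableSpace X)
    (_ : StandardBorelSpace X) (_ : AddAction (Fin d → ℤ) X), IsFreeBorelAction d X ∧
      (∀ i : Fin d, ∃ c : X → Fin 2, IsProper i c) ∧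
      ¬ ∃ c : X → Fin (2 ^ d), IsPolychromatic (d := d) (2 ^ d) c := by
  obtain ⟨d, rfl⟩ : ∃ e, d = e + 2 := ⟨d - 2, by omega⟩
  exact ⟨Sp d, inferInstance, inferInstance, inferInstance, isFreeBorelAction d,
    fun i => ⟨parity d, isProper_parity d i⟩, fun ⟨c, hc⟩ => not_polychromatic d c hc⟩

end Pool.Agent.Results.MP_27056a_lc.NoCubes
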